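import Pool.Agent.U554.TW.Ab

/-!
# Hodge classes and absolute Hodge classes: bilinear equations and the cubics `T(x, y, z) = 1`

Let `k` be an algebraically closed field, `σ : k → ℂ` an embedding, and `k₀` a subfield of `k` (for
instance `k₀ = k`, or `k₀ = ℚ` and `k` an algebraic closure of `ℚ`).

* `𝓡` is the abelian category of mixed realizations over `k` (Deligne, Jannsen; for absolute Hodge
  cycles), `𝓗` the category of mixed `ℚ`-Hodge structures, `ω : 𝓡 ⥤ 𝓗` the Hodge realization which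
  belongs to `σ`, and `one` the unit object `ℚ(0)` of `𝓡`.
* `O b m X`, for the separated schemes `X` of finite type over `k₀`, is the Borel-Moore homology
  `H_{m + 2 b}(X ⊗ k)(-b)` in `𝓡`; for `X` smooth of pure dimension `d` this is the cohomology
  `H^{2 j - m}(X ⊗ k)(j)`, `j = d - b`.
* The morphisms `one ⟶ M` in `𝓡` are the absolute Hodge classes in `M`, the morphisms
  `ω.obj one ⟶ ω.obj M` the Hodge classes.

`IsRealization` lists the known properties which are used. Let `T` be a trilinear form in three blocks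
`x`, `y`, `z` of `a₁`, `a₂`, `a₃` variables.

* `zeroS T` is the closed subvariety `Z_T` of `𝔸^(a₂ + a₃)` given by the `a₁` bilinear equations
  `∂T/∂x_i (y, z) = 0`;
* `hypS T` is the smooth affine hypersurface `Y_T : T(x, y, z) = 1` of dimension
  `d = a₁ + a₂ + a₃ - 1`; `O (d - j) 1 (hypS T)` is `H^{2 j - 1}(Y_T)(j)`.
-/

set_option autoImplicit false

open CategoryTheory AlgebraicGeometry MvPolynomial Pool.Agent.Y116.UV Pool.Agent.U554.TU
  Pool.Agent.U554.TW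

universe v u v' u'

namespace Pool.Agent.Results.MP_0da4e0_ag.CubicHypersurfaces

section

variable {𝓡 : Type u} [Category.{v} 𝓡] [Abelian 𝓡] {𝓗 : Type u'} [Category.{v'} 𝓗]

/-- All Hodge classes in `M` are absolute Hodge classes. -/
def AllAbsolute (ω : 𝓡 ⥤ 𝓗) (one M : 𝓡) : Prop :=
  ∀ x : ω.obj one ⟶ ω.obj M, ∃ y : one ⟶ M, ω.map y = x

/-- The known properties of the Borel-Moore homology with values in the category of mixed
realizations: the properties `IsAbTheory` (long exact sequences, homotopy invariance, ...) and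

* `point`: `H_{m + 2 b}(Spec k)(-b) = 0` for `b < 0` and `m = 0, 1`;
* `torsor`: homotopy invariance for affine bundles;
* `jouanolou`: smooth separated schemes of finite type have affine bundles with affine total space
  (Jouanolou, Thomason);
* `cover`: for each `X` there is a smooth proper `V`, an open subscheme `X'` of `V` and a proper
  surjective morphism `X' → X` (Hironaka); the image of
  `H_{2 b}(V)(-b) → H_{2 b}(X')(-b) → H_{2 b}(X)(-b)` is the part of lowest weight `0` (Deligne), so that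
  all Hodge classes are images of Hodge classes (polarizable Hodge structures are semisimple). -/
structure IsRealization (ω : 𝓡 ⥤ 𝓗) (one : 𝓡) {k₀ : Type} [Field k₀] (O : ℤ → ℤ → Sch k₀ → 𝓡) :
    Prop extends IsAbTheory O where
  point : ∀ b m : ℤ, b < 0 → (m = 0 ∨ m = 1) → Limits.IsZero (O b m (aff k₀ k₀))
  torsor : BundleInvariant (abRel 𝓡) O
  jouanolou : ∀ X : Sch k₀, FT True X → Smooth X.hom → HasAffineBundle X
  cover : ∀ X : Sch k₀, FT True X → ∃ V : Sch k₀, FT True V ∧ Smooth V.hom ∧ IsProper V.hom ∧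
    ∀ b : ℤ, ∃ u : O b 0 V ⟶ O b 0 X, ∀ x : ω.obj one ⟶ ω.obj (O b 0 X),
      ∃ y : ω.obj one ⟶ ω.obj (O b 0 V), y ≫ ω.map u = x

/-- The closed subvariety `∂T/∂x_i (y, z) = 0`, `1 ≤ i ≤ a₁`, of the affine space with the coordinates
`y`, `z`. -/
noncomputable def zeroS {k : Type} [Field k] {a₁ a₂ a₃ : ℕ} (T : Fin a₁ → Fin a₂ → Fin a₃ → k) :
    Sch k :=
  aff k (MvPolynomial (Fin a₂ ⊕ Fin a₃) k ⧸
    Ideal.span (Set.range fun i => bil (Fin a₂) (Fin a₃) (T i)))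

omit [Abelian 𝓡] in
lemma inherited (ω : 𝓡 ⥤ 𝓗) (one : 𝓡) : Inherited (abRel 𝓡) (AllAbsolute ω one) := by
  rintro X Y ⟨r⟩ hY x
  obtain ⟨y, hy⟩ := hY (x ≫ ω.map r.i)
  refine ⟨y ≫ r.r, ?_⟩
  rw [ω.map_comp, hy, Category.assoc, ← ω.map_comp, r.retract, ω.map_id, Category.comp_id]

variable {ω : 𝓡 ⥤ 𝓗} {one : 𝓡} {k₀ : Type} [Field k₀] {O : ℤ → ℤ → Sch k₀ → 𝓡}

/-- The groups of the affine space of dimension `r` in the weights `b < r` and the degrees `0`, `1`. -/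
lemma space_triv (hO : IsRealization ω one O) (r : ℕ) (b m : ℤ) (hb : b < r) (hm : m = 0 ∨ m = 1) :
    Limits.IsZero (O b m (aff k₀ (MvPolynomial (Fin r) k₀))) := by
  obtain ⟨e⟩ := hO.space k₀ r (b - r) m
  rw [sub_add_cancel] at e
  exact (hO.point _ m (by omega) hm).of_iso e.symm

/-- The bilinear equations and the hypersurface:
`H_{2 (a₂ + a₃ - j)}(Z_T)(a₂ + a₃ - j) = H^{2 j - 1}(Y_T)(j)` for `j ≥ 1`. -/
lemma zero_hyp (hO : IsRealization ω one O) {a₁ a₂ a₃ : ℕ} (T : Fin a₁ → Fin a₂ → Fin a₃ → k₀)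
    (j : ℕ) (hj : 1 ≤ j) :
    (abRel 𝓡).Iso (O (a₁ + a₂ + a₃ - 1 - j) 1 (hypS T)) (O (a₂ + a₃ - j) 0 (zeroS T)) := by
  have hB := hO.toIsAbTheory.isTheory
  let f : Fin a₁ → MvPolynomial (Fin a₂ ⊕ Fin a₃) k₀ := fun i => bil (Fin a₂) (Fin a₃) (T i)
  have e : MvPolynomial (Fin a₂ ⊕ Fin a₃) k₀ ≃ₐ[k₀] MvPolynomial (Fin (a₂ + a₃)) k₀ :=
    renameEquiv k₀ finSumFinEquiv
  have h0 : (abRel 𝓡).Triv (O (a₂ + a₃ - j) 0 (aff k₀ (MvPolynomial (Fin a₂ ⊕ Fin a₃) k₀))) :=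
    (abRel 𝓡).iso_triv ((abRel 𝓡).iso_symm (hB.alg e _ 0))
      (space_triv hO _ _ 0 (by push_cast; omega) (Or.inl rfl))
  have h1 : (abRel 𝓡).Triv
      (O (a₂ + a₃ - j) (0 + 1) (aff k₀ (MvPolynomial (Fin a₂ ⊕ Fin a₃) k₀))) := by
    rw [zero_add]
    exact (abRel 𝓡).iso_triv ((abRel 𝓡).iso_symm (hB.alg e _ 1))
      (space_triv hO _ _ 1 (by push_cast; omega) (Or.inr rfl))
  have h2 := hB.closed _ _ (ft_aff True) (triple_ne f) _ _ h0 h1
  rw [zero_add] at h2
  have h3 := (abRel 𝓡).iso_symm (hB.hyp_bundle T (a₂ + a₃ - j) 1)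
  rw [show (a₂ + a₃ - j + a₁ - 1 : ℤ) = a₁ + a₂ + a₃ - 1 - j from by ring] at h3
  exact (abRel 𝓡).iso_trans h3 h2

end

/-- **Hodge classes are absolute Hodge classes: bilinear equations, and the cubic hypersurfaces
`T(x, y, z) = 1`.** Let `k` be an algebraically closed field with an embedding `σ` into `ℂ`, `k₀` a
subfield of `k`, `𝓡` the category of mixed realizations over `k` with the unit object `one`, `ω` the
Hodge realization given by `σ`, and let `O b m X` have the known properties of the Borel-Moore homology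
`H_{m + 2 b}(X ⊗ k)(-b)` in `𝓡` of the separated schemes `X` of finite type over `k₀`. Let `s ≥ 1` be an
arbitrary fixed number. The following assertions are equivalent:
* for all smooth proper `V` over `k₀` and all `b`, all Hodge classes in `H_{2 b}(V ⊗ k)(-b)` are absolute
  Hodge classes (for `k₀ = k` this is the assertion Q1 for `k` and `σ`);
* the same for all separated schemes of finite type over `k₀` (Hodge classes are the morphisms from
  `ℚ(0)` to the mixed Hodge structure);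
* the same for all closed subvarieties `Z_T` of `𝔸^(a₂ + a₃)` which are given by a finite number of
  bilinear equations in `a₂ + a₃` variables;
* all Hodge classes in `H^{2 j - 1}(Y_T ⊗ k)(j)` are absolute Hodge classes, for all trilinear forms `T`
  over `k₀` and all `j ≥ s`.
If `k₀` is a prime field, the bilinear equations with coefficients `0` and `1` are sufficient in the
third assertion, and the hypersurfaces `∑_{(i, j, k) ∈ S} x_i y_j z_k = 1`, `S` a finite set of triples,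
in the last one. -/
theorem result (k k₀ : Type) [Field k] [IsAlgClosed k] [Field k₀] [Algebra k₀ k] (_σ : k →+* ℂ)
    {𝓡 : Type u} [Category.{v} 𝓡] [Abelian 𝓡] {𝓗 : Type u'} [Category.{v'} 𝓗] (ω : 𝓡 ⥤ 𝓗)
    (one : 𝓡) (O : ℤ → ℤ → Sch k₀ → 𝓡) (hO : IsRealization ω one O) (s : ℕ) (hs : 1 ≤ s) :
    List.TFAE [
      ∀ (V : Sch k₀) (b : ℤ), FT True V → Smooth V.hom → IsProper V.hom →
        AllAbsolute ω one (O b 0 V),
      ∀ (X : Sch k₀) (b : ℤ), FT True X → AllAbsolute ω one (O b 0 X),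
      ∀ (a₁ a₂ a₃ : ℕ) (T : Fin a₁ → Fin a₂ → Fin a₃ → k₀) (b : ℤ),
        AllAbsolute ω one (O b 0 (zeroS T)),
      ∀ (a₁ a₂ a₃ : ℕ) (T : Fin a₁ → Fin a₂ → Fin a₃ → k₀) (j : ℕ), s ≤ j →
        AllAbsolute ω one (O (a₁ + a₂ + a₃ - 1 - j) 1 (hypS T))] ∧
    ((∀ x : k₀, ∃ d n : ℤ, (d : k₀) ≠ 0 ∧ (n : k₀) = d * x) →
      List.TFAE [
        ∀ (V : Sch k₀) (b : ℤ), FT True V → Smooth V.hom → IsProper V.hom →
          AllAbsolute ω one (O b 0 V),
        ∀ (a₁ a₂ a₃ : ℕ) (T : Fin a₁ → Fin a₂ → Fin a₃ → k₀),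
          (∀ i j l, T i j l = 0 ∨ T i j l = 1) → ∀ b : ℤ, AllAbsolute ω one (O b 0 (zeroS T)),
        ∀ (a₁ a₂ a₃ : ℕ) (S : Finset (Fin a₁ × Fin a₂ × Fin a₃)) (j : ℕ), s ≤ j →
          AllAbsolute ω one (O (a₁ + a₂ + a₃ - 1 - j) 1 (tripS k₀ S))]) := by
  have hT := hO.toIsAbTheory.isTheory
  have hV : (∀ (V : Sch k₀) (b : ℤ), FT True V → Smooth V.hom → IsProper V.hom →
      AllAbsolute ω one (O b 0 V)) → ∀ (X : Sch k₀) (b : ℤ), FT True X →
      AllAbsolute ω one (O b 0 X) := by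
    intro h X b hX x
    obtain ⟨V, h1, h2, h3, h4⟩ := hO.cover X hX
    obtain ⟨w, hw⟩ := h4 b
    obtain ⟨y, rfl⟩ := hw x
    obtain ⟨z, rfl⟩ := h V b h1 h2 h3 y
    exact ⟨z ≫ w, ω.map_comp _ _⟩
  have hy : ∀ (S : Set k₀), 0 ∈ S → 1 ∈ S → Presents S →
      (∀ (a₁ a₂ a₃ : ℕ) (T : Fin a₁ → Fin a₂ → Fin a₃ → k₀), (∀ i j l, T i j l ∈ S) →
        ∀ j : ℕ, s ≤ j → AllAbsolute ω one (O (a₁ + a₂ + a₃ - 1 - j) 1 (hypS T))) →
      ∀ (X : Sch k₀) (b : ℤ), FT True X → AllAbsolute ω one (O b 0 X) := by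
    intro S h0 h1 hS h
    refine hV fun V b h2 h3 _ => ?_
    refine bundle_of_affine hO.torsor (inherited ω one) 0 ?_ V h2 (hO.jouanolou V h2 h3) b
    intro A _ _ _ b
    exact affine_of_hyp hT (inherited ω one) h0 h1 hS s 0
      (fun a₁ a₂ a₃ T hT' j hj => h a₁ a₂ a₃ T hT' j hj) A b
  have hz : ∀ (S : Set k₀), (∀ (a₁ a₂ a₃ : ℕ) (T : Fin a₁ → Fin a₂ → Fin a₃ → k₀),
      (∀ i j l, T i j l ∈ S) → ∀ b : ℤ, AllAbsolute ω one (O b 0 (zeroS T))) →
      (∀ (a₁ a₂ a₃ : ℕ) (T : Fin a₁ → Fin a₂ → Fin a₃ → k₀), (∀ i j l, T i j l ∈ S) →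
        ∀ j : ℕ, s ≤ j → AllAbsolute ω one (O (a₁ + a₂ + a₃ - 1 - j) 1 (hypS T))) := by
    intro S h a₁ a₂ a₃ T hT' j hj
    exact ((inherited ω one).iff (zero_hyp hO T j (hs.trans hj))).mpr (h a₁ a₂ a₃ T hT' _)
  refine ⟨?_, ?_⟩
  · tfae_have 1 → 2 := hV
    tfae_have 2 → 1 := fun h V b h1 _ _ => h V b h1
    tfae_have 2 → 3 := fun h a₁ a₂ a₃ T b => h _ _ (ft_aff True)
    tfae_have 3 → 4 := fun h a₁ a₂ a₃ T j hj =>
      hz Set.univ (fun a₁ a₂ a₃ T _ b => h a₁ a₂ a₃ T b) a₁ a₂ a₃ T (fun _ _ _ => trivial) j hj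
    tfae_have 4 → 2 := fun h =>
      hy Set.univ trivial trivial presents_univ fun a₁ a₂ a₃ T _ j hj => h a₁ a₂ a₃ T j hj
    tfae_finish
  · intro hk
    have hp : Presents ({0, 1} : Set k₀) := Pool.Agent.Q193.LT.presents_frac fun x => by
      obtain ⟨d, n, hd, hn⟩ := hk x
      exact ⟨d, n, hd.isUnit, hn⟩
    tfae_have 1 → 2 := fun h a₁ a₂ a₃ T _ b => hV h _ _ (ft_aff True)
    tfae_have 2 → 3 := by
      intro h a₁ a₂ a₃ S j hj
      obtain ⟨T, hT', hS⟩ := trip_hyp (R := k₀) S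
      rw [← hS]
      exact hz {0, 1} (fun a₁ a₂ a₃ T hT' b => h a₁ a₂ a₃ T hT' b) a₁ a₂ a₃ T hT' j hj
    tfae_have 3 → 1 := by
      intro h V b h1 _ _
      refine hy {0, 1} (Or.inl rfl) (Or.inr rfl) hp (fun a₁ a₂ a₃ T hT' j hj => ?_) V b h1
      obtain ⟨S, hS⟩ := hyp_zero_one T hT'
      rw [hS]
      exact h a₁ a₂ a₃ S j hj
    tfae_finish

end Pool.Agent.Results.MP_0da4e0_ag.CubicHypersurfaces
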