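import Pool.Agent.U231.HF.MorFin

/-!
# Fullness of the Hodge realization for the products of arbitrary varieties with Fermat varieties

Let `Z` and `Z'` be **arbitrary** smooth projective varieties over the algebraically closed field `k`, `σ` an embedding of `k`
into `ℂ`, and let `B ≥ 1` be a bound for the dimensions of the simple Hodge substructures **of CM type** of the rational
cohomology of `Z × Z'`. For instance any bound of the Betti numbers will do; and `B = 1` if the
only simple substructures of CM type are the lines of Hodge classes. Let `A_i` and `A'_i` be products of Fermat varieties `x_0 ^ N_i + ⋯ + x_{n+1} ^ N_i = 0` of the same prime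
degree `N_i` (one of them may be a point), and let the degrees `N_i` be different. Let `s_i` be the
number of all coordinates used for `A_i` and `A'_i` together, i.e. the sum of the numbers `n + 2` of the factors.

**Theorem.** Suppose for all `i` that `N_i > s_i B + 1`, or only that every odd divisor `m ≤ s_i` of `N_i - 1` satisfies
`m B < N_i - 1`. Let `V = A_1 × ⋯ × A_r × Z` and `V' = A'_1 × ⋯ × A'_r × Z'`. **All morphisms of Hodge structures
`H(V) → H(V')(j)`, for all `j`, come from morphisms of motives for absolute Hodge cycles (`IsFull D V V'`) if and only if this is so
for the morphisms `H(Z) → H(Z')(j)`.**

So for given `Z` and `Z'` and given dimensions the theorem applies to all primes `N_i` with finitely many exceptions. It applies for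
all dimensions of the Fermat varieties and all numbers of them if a power of `2` which divides `N_i - 1` is greater than `B`;
in particular, for `B = 1` it applies **to all odd primes `N_i`, without any condition**. Nothing is assumed about `Z` and `Z'` and
their Hodge structures: their motives need not be generated by motives of abelian varieties, as those of the `A_i` and `A'_i`. So
the fullness for all the pairs `(V, V')` is reduced to the one pair `(Z, Z')`; for instance it holds for all of them if
`dim Z + dim Z' ≤ 3`. For motives with projectors the statement follows: a morphism `H(V, p) → H(V', q)` is a morphism `f` from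
`H(V)` to `H(V')` with `q f p = f`.

`D` is the family of the conjugate theories with all comparison isomorphisms. An element `c` of `H(V × V')` is absolutely Hodge
of degree `2 j` if `Full.IsAbsHodge D _ j c`, and it gives the linear map `x ↦ q_* (c · p^* x)` from `H(V)` to `H(V')`, where `p` and
`q` are the projections of `V × V'`. `IsFull D V V'` says that all morphisms of Hodge structures `H(V) → H(V')(j - dim V)` are of this
form (`AllGivenBy`); here a morphism of Hodge structures is a linear map which maps the types `(p, q)` to
`(p + j - dim V, q + j - dim V)` (`IsHodgeMap`).

**The formal setting.** The framework is that of the starting files `Pool.Agent.Y121.AHS`. A `HodgeTheory` is a Weil cohomology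
theory `W` with rational coefficients with a Hodge decomposition `pq` of the cohomology `HL W ℂ X` with complex coefficients,
compatible with products, pull-backs, push-forwards and cycle classes, with polarisations.

The middle cohomology of a Fermat variety `X` of degree `N` and dimension `n` is, with complex coefficients, the direct sum of
the eigenspaces `V_a` of the group `μ_N ^ (n+2)`, where `a = (a_0, …, a_{n+1})` consists of residues modulo `N` different
from `0` with the sum `0` (and of the class of linear sections, with the empty multiset `a`). The Hodge type of `V_a` is
`(p, q)` with `p - q = ∑_j (2 ⟨a_j / N⟩ - 1) = (1 / N) ∑_j saw (a_j)` (up to the sign), where `saw (b) = 2 b - N` for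
`0 < b < N`. If an automorphism of `ℂ` raises the roots of unity of order `N` to the power `c`, then it maps `V_a` to
`V_{c a}`. If the multisets `a` and `-a` are equal then `V_a` is spanned by the classes of linear subspaces (Ran, Shioda). For
products of Fermat varieties of the degree `N` one takes the tensor products, and the multisets are added; if the
multiset is symmetric then the classes are algebraic by Shioda's inductive structure. This is what
`IsFermatDecomposition` says, and nothing else is assumed of the `X_i` (and that there is a zero-cycle of nonzero degree).

`HasPieces T B Z` says that `H(Z, ℚ)` is a direct sum of Hodge substructures `U`, each of which has dimension at most `B` or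
has no pure element `v ≠ 0` in `U_ℂ`. Here `v` is pure if every conjugate `σ(v)`, `σ ∈ Aut(ℂ)`, is a sum of elements of types
`(p, q)` with one value of `p - q`. The Mumford-Tate group acts on the line of a pure element by a character, so a polarisable
`U` has such elements if and only if it has a substructure of CM type.

**The proof.** Let `y` be a Hodge class on `Y = X_1 × ⋯ × X_r × Z`. Suppose that `y` has a component different from `0` for the
characters `a_i` of the `X_i`, where `a = a_1` is not symmetric. The contractions `v` of this component with linear
forms are elements of `H(Z, ℂ)`. Let `G` be the operator which is multiplication by `2 ^ (p - q)` on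
`H ^ (p, q)`; it is a ring automorphism, commutes with pull-backs and fixes `y`. For automorphisms `t` of the field `ℂ` the
conjugates `t G t⁻¹` act on `v` by known scalars: since `y` is rational and a Hodge class, the exponent is `- ∑_i S_i (t) / N_i`,
where `S_i (t)` is the sum of the sawtooth function over the multiset `c_i (t) a_i`, and `c_i` is the cyclotomic
character modulo `N_i`. The same is true for the projections of `v` to the Hodge substructures `U` in the
decomposition of `H(Z, ℚ)`; so these are pure, and one which is different from `0` is in a substructure `U` with `dim U ≤ B`; we
replace `v` by it. Now choose automorphisms `g` of `ℂ` with a given value of `c_1 (g)` and with `c_i (g) = 1` for `i ≠ 1`.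
The vectors `g v` are again in `U_ℂ`, and two of them have different eigenvalues for some `t G t⁻¹`, unless
they have the same function `t ↦ S_1 (t g)`. So these vectors are linearly independent, and the stabilizer `H` of
the function `t ↦ S_1 (t)` in `(ℤ/N_1)ˣ` has index at most `dim U ≤ B`. The function is the convolution of the sawtooth
function with the odd part of the multiplicity function of `a`. Since the generalized Bernoulli numbers `B_{1,χ}` of the odd
characters are different from `0`, the odd part is determined by the convolution, so it is invariant under `H`. It is not
zero, since `a` is not symmetric. So `-1` is not in `H`, the order `m` of `H` is an odd divisor of `N_1 - 1`, and the support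
of `a` contains a coset of `H`, so `m ≤ s_1`. But `m B ≥ N_1 - 1`, a contradiction. So only symmetric, algebraic
characters occur.

helper231. The nonvanishing of the Bernoulli numbers is from the starting file `Pool.Agent.H916R2.Indep` (Mathlib has
Dirichlet's theorem on `L(1, χ)`), the automorphisms of `ℂ` with given cyclotomic characters are from
`Pool.Agent.Helper475.ExistsRingequivPow`.
-/

set_option autoImplicit false

open CategoryTheory AlgebraicGeometry

universe u

namespace Pool.Agent.Results.MP_0da4e0_ag.FermatTimesArbitrary

open Pool.Agent.H914 Pool.Agent.H914.VarClass Pool.Agent.H914.VarClass.Obj Pool.Agent.H914.WeilCohomology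
  Pool.Agent.Y121.AHS Pool.Agent.U231.HF

/-- All morphisms of Hodge structures from `H(V)` to the Tate twists of `H(V')` are given by absolutely
Hodge classes `c` on `V × V'`, by the formula `x ↦ q_* (c · p^* x)`. -/
def IsFull {k : Type u} [Field k] {𝒱 : VarClass k} {ops : CycleOps 𝒱}
    {T : HodgeTheory ops} (D : Full.Conjugates T) (V V' : 𝒱.Obj) : Prop :=
  AllGivenBy (K := T.W.K) (V := T.W.H V) (V' := T.W.H V') (T.pq V) (T.pq V') V.dim
    (T.W.map (fst V V')) (T.W.push (snd V V')) (Full.IsAbsHodge D (V.prod V'))

/-- **Morphisms of Hodge structures and motives for absolute Hodge cycles on the products of arbitrary
varieties with varieties of Fermat type.** -/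
theorem result {k : Type u} [Field k] {𝒱 : VarClass k} {ops : CycleOps 𝒱} (T : HodgeTheory ops)
    (D : Full.Conjugates T) {ι : Type} (N s : ι → ℕ) (A A' : ι → 𝒱.Obj)
    (hA : AreFermatFactors T N s fun i => (A i).prod (A' i)) (Z Z' : 𝒱.Obj) {B : ℕ}
    (hB : 0 < B) (hZ : HasPieces T B (Z.prod Z')) (hN : ∀ i, IsLarge (N i) (s i) B)
    (L : List ι) (hL : L.Nodup) :
    IsFull D (productOf A Z L) (productOf A' Z' L) ↔ IsFull D Z Z' :=
  (allGiven_iff D _ _).trans ((full_iff D hA hB hZ hN hL).trans (allGiven_iff D _ _).symm)

end Pool.Agent.Results.MP_0da4e0_ag.FermatTimesArbitrary
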