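import Pool.Agent.U222.AC.FFin2

/-!
# Fullness of the Hodge realization for the products of coverings of large prime degrees with all varieties

Let `X_0, …, X_n` be smooth projective equivariant models (toroidal resolutions) of the cyclic
coverings

  `w ^ N_i = l_1 (x) ⋯ l_(a_i) (x)`

of the projective spaces of dimensions `d_i`, where `a_i ≥ 2`, the `N_i` are **different prime numbers**
and `l_1, …, l_(a_i)` are polynomials of degree one in `d_i` variables in general position (also with
respect to the hyperplane at infinity, along which the covering is branched, too). For `d_i = 1` these are
the curves `y ^ N = f (x)`, where `f` is any polynomial of degree `a` without multiple roots. The varieties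
`X_i` form families with `d_i (a_i - d_i - 1)` moduli; they are of general type or Calabi-Yau varieties for
large `a_i`, and not of CM type in general. The classes invariant under the covering group are algebraic.
The eigenspaces for the nontrivial characters are in degree `d` and have dimension
`binomial (a - 1, d)`; for `0 < j < N / a` the eigenspace for `χ ^ j`, where `χ` is a suitable generator, is of
type `(d, 0)` and the one for `χ ^ (-j)` of type `(0, d)` (Deligne, Esnault and Viehweg). These are the
properties that are used (`IsCyclicCovering`).

Let `M ≥ 1` and `b ≥ 0` be integers with `d_i ≥ M` and

  `N_i > a_i ^ 2 b + a_i` for all `i` (`AreCoverings`).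

Let `k` be an algebraically closed field with an embedding `σ` into `ℂ`; all varieties are smooth projective
varieties over `k`.

**Theorem.** Let `X = X_0 × ⋯ × X_n`, and let `Z` and `Z'` be **any** smooth projective varieties such that
`Y = Z × Z'` satisfies

  `∑_{p + q = d, q - p ≥ M} h^(p,q)(Y) ≤ b` for all `d`,

for instance any `Z`, `Z'` with Betti numbers of `Z × Z'` at most `2 b`, or (with `b = 0`) with `dim Z + dim Z' < M`
(`HasFew`). Let the factors `X_i` be distributed in any way to `Z` and `Z'`: let `V` and `V'` be varieties with
`V × V' = X × Z × Z'`, for instance `V = X × Z` and `V' = Z'`, or `V = X_I × Z` and `V' = X_J × Z'`, where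
`{0, …, n}` is the disjoint union of `I` and `J`. Then (`Conclusion`):

* **all morphisms of Hodge structures `H(V) → H(V')(j)`, for all `j`, come from morphisms of motives for absolute Hodge cycles
  (`IsFull D V V'`) if and only if this is so for the morphisms `H(Z) → H(Z')(j)`**;
* this is so for all `Z`, `Z'` with `dim Z + dim Z' ≤ 3` (by the theorem of Lefschetz on the classes of type `(1, 1)`
  on `Z × Z'`, `HasLefschetz`).

In terms of Hodge classes it says (since `IsFull D V V'` means that all Hodge classes on `V × V'` are absolutely Hodge, see
`Pool.Agent.U222.AC.full_iff_abs`): all Hodge classes on `X × Y` are absolutely Hodge if and only if all Hodge classes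
on `Y` are; for the proof it is not used that `Y` is a product (`Pool.Agent.U222.AC.abs_main`).

So every fullness statement for a pair `(Z, Z')`, for instance Deligne's theorem for the motives
generated by abelian varieties, extends to the pairs `(V, V')`, where the motives of the varieties `X_i` are not known to be in the
category generated by the motives of abelian varieties for `d_i ≥ 2`. For motives with projectors the statement
follows: a morphism `H(V, p) → H(V', q)` is a morphism `f` from `H(V)` to `H(V')` with `q f p = f`.

`D` is the family of the conjugate theories with all comparison isomorphisms. An element `c` of `H(V × V')` is absolutely Hodge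
of degree `2 j` if `Full.IsAbsHodge D _ j c`, and it gives the linear map `x ↦ q_* (c · p^* x)` from `H(V)` to `H(V')`, where `p` and
`q` are the projections of `V × V'`. `IsFull D V V'` says that all morphisms of Hodge structures `H(V) → H(V')(j - dim V)` are of this
form (`AllGivenBy`); here a morphism of Hodge structures is a linear map which maps the types `(p, q)` to
`(p + j - dim V, q + j - dim V)`.

The varieties `X_i` enter only through the following properties (`AreCoverings`, `IsCyclicCovering`): `X_i` has an automorphism
`t_i` with `t_i ^ N_i = 1`, the `N_i` are different primes, the invariant classes in `H(X_i, ℚ)` are algebraic,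
the eigenvectors of `t_i^*` in `H(X_i, ℂ)` with eigenvalues different from `1` are sums of classes of
types `(p, q)` with `-d_i ≤ p - q ≤ d_i`, and there is a root of unity `z ≠ 1` of order `N_i` such that the
eigenvectors with the eigenvalues `z ^ j`, `0 < j < N_i / a_i`, are of types `p - q ≥ d_i` (of type `(d_i, 0)`), and those with the
eigenvalues `z ^ (-j)` of types `p - q ≤ -d_i`. There is no other condition on `Z` and `Z'`: they may have complex
multiplication, or be quotients of other coverings.

In the intended use `𝒱` is the class of all smooth projective varieties over `k` and `T` is the Hodge
theory `Y ↦ H(σY, ℚ)`, with its cycle classes, pull-backs and push-forwards, Kunneth formula and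
Hodge decomposition; only such properties are used (`HodgeTheory`, starting files).

The proof. Let `c` be a Hodge class on `X × Y`, and `c_χ` its component for the
character `χ ≠ 1` of the group `G` generated by the `t_i`. For `τ` in `Aut (ℂ)` the conjugate of `c_χ` is the component for the
character `τ χ`. The coefficients of `c_{τ χ}` in `H(Y, ℂ)` (its contractions with all
linear forms on `H(X, ℂ)`) form a subspace `U_τ = τ (U_1)` which is spanned by classes of pure types.
Let `P` be the projection of `H(Y, ℂ)` to the types with `p - q < 0`. If `ρ τ χ` has types `p - q > 0`
then `ρ⁻¹ P ρ` is the identity on `U_τ`, if it has types `p - q < 0` then `ρ⁻¹ P ρ` is zero on `U_τ`. So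
for pairwise separated conjugates products of such operators show that the sum of the `b + 1` spaces
`U_τ` is direct. They are contained in the part of `H(Y, ℂ)` of types `q - p ≥ M`, of dimension at
most `b`. So `c_χ = 0`, and `c` is a combination of products of algebraic classes on `X` and Hodge classes on `Y`
(this part is in `Pool.Agent.U222.HD`, and gives the Hodge conjecture for `X` and its consequences, see the
sibling on products of coverings with arbitrary varieties for the Hodge conjecture). For the absolutely Hodge
classes let `(d_t)` and `(e_t)` be dual bases of the space of the algebraic classes on `X` for the cup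
product, which is nondegenerate there since homological and numerical equivalence agree on `X` by the Hodge
conjecture for `X` and the polarisation. Then `c = ∑ e_t × q_* (d_t · c)`, and `q_* (d_t · c)` is absolutely Hodge if
`c` is.

helper222.
-/

set_option autoImplicit false

open CategoryTheory AlgebraicGeometry

universe u

namespace Pool.Agent.Results.MP_0da4e0_ag.LargePrimeCoverings

open Pool.Agent.H914 Pool.Agent.H914.VarClass Pool.Agent.H914.VarClass.Obj Pool.Agent.Y121.AHS
open Pool.Agent.U222.AC.Ful

/-- **Morphisms of Hodge structures and motives for absolute Hodge cycles on the products of coverings
of large prime degrees with arbitrary varieties.** -/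
theorem result {k : Type u} [Field k] {𝒱 : VarClass k} {ops : CycleOps 𝒱} (T : HodgeTheory ops)
    -- the conjugate theories and all comparison isomorphisms
    (D : Full.Conjugates T)
    -- the varieties `X_0, …, X_n` with automorphisms `t_i` of orders `N_i`
    {n : ℕ} (X : Fin (n + 1) → 𝒱.Obj) (t : ∀ i, End (X i)) (N d a : Fin (n + 1) → ℕ)
    (M : ℤ) (b : ℕ) (hM : 0 < M) (h : AreCoverings T X t N d a M b)
    -- all other varieties
    (Z Z' V V' : 𝒱.Obj) (hZ : HasFew (T.pq (Z.prod Z')) M b) :
    Conclusion D (prodOf n X) Z Z' V V' :=
  full_fin T D X t N d a M b hM h Z Z' V V' hZ

end Pool.Agent.Results.MP_0da4e0_ag.LargePrimeCoverings
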