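import Pool.Agent.U233.AM.FinA

/-!
# Hodge classes on products of sections are absolutely Hodge

Let `k` be an algebraically closed field, and let `T τ`, `τ ∈ J`, be the Hodge theories
`X ↦ H(τX, ℚ)` of the smooth projective varieties over `k` for embeddings `τ : k → ℂ`, with the
comparisons `κ` (`Comparison`: de Rham cohomology together with the étale cohomology with
coefficients in `𝔸_f`). Let `σ ∈ J`. A Hodge class on `σX` is *absolutely Hodge* if it becomes a Hodge
class on `τX` for all `τ`. The realization `H_σ` of the category of motives for absolute Hodge cycles
in the category of Hodge structures is full if and only if for all `X` all Hodge classes on `σX` are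
absolutely Hodge (`HodgeIsAbs κ σ X`).

**The sections.** Let `V_i`, `i ∈ ι`, be pure polarised Hodge structures of levels `d_i > 0` with
*full Hodge groups* (symplectic for odd `d_i`, special orthogonal for even `d_i`; for even `d_i` let
`dim V_i ≥ 10`), without nonzero homomorphisms between Tate twists of `V_i` and `V_j` for `i ≠ j`. Let
`f_i : X_i → W_i` be morphisms to **arbitrary** varieties `W_i` such that (`Relative`)

  `H(σX_i) = (the algebra generated by the image of H(σW_i) and by algebraic classes on X_i) + V_i`,

where `V_i` sits in the middle degree. Nothing is assumed on `H(τX_i)` for the other embeddings.
Examples: very general members `X_i` of the linear systems of sufficiently ample divisors on `W_i` or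
on `W_i × ℙ^n`, complete intersections of such divisors, and the varieties whose cohomology is the
sum of `V_i` and of algebraic classes (`W_i` is a point).

**The theorem** (`AbsDescent`). Let `Z` be an **arbitrary** variety, and `i_1, i_2, …, i_n` a list of
indices, with repetitions (`i` occurs less than `dim V_i` times if `dim X_i` is even). Assume that no
`i_a` is exceptional with respect to Hodge structures `U_1, …, U_m` which generate `H(Z)` and the images
of the `H(W_(i_a))` in `H(X_(i_a))`, up to classes with complex multiplication. If all Hodge classes on
`W_(i_1) × ⋯ × W_(i_n) × Z` are absolutely Hodge then all Hodge classes on

  `X_(i_1) × ⋯ × X_(i_n) × Z`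

are absolutely Hodge; and the latter is the case if and only if the pull-backs of the Hodge classes
from the former are absolutely Hodge.

**Abelian varieties** (`AvoidsAbelian`). If the `W_i` and `Z` are **abelian varieties** then `H(Z)` and
`H(W_i)` are generated by `U = H^1`, and there are no exceptional indices, if for example all
`d_i ≥ 3` are odd. By the theorem of Deligne all Hodge classes on abelian varieties are absolutely
Hodge. So *all Hodge classes on all products of very general ample hypersurfaces `X_i` in abelian
varieties `W_i`, or in `W_i × ℙ^n`, and of abelian varieties are absolutely Hodge*: the realization is
fully faithful on the category which is generated by the motives of these `X_i` (of odd dimension)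
and by the motives of abelian varieties. The motives of the `X_i` are not of abelian type.

In general there are sets `E(U)` of exceptional indices, with at most `dim U - dim U'` elements, where
`U'` is the part with complex multiplication; `i` is not in `E(U)` if the level of `U` is at most `d_i`
and `V_i` does not occur in `U`, up to twists, and `V_i` is big; or if `dim U < dim V_i ≥ 10`; or by a
criterion on the Hodge numbers (`Exceptions`).

## The proof

The group generated by the operators `T(σ, z, w)`, which multiply the `σ`-conjugates of the vectors of
type `(p, q)` by `z^p w^q`, acts semisimply on the complex cohomology of all varieties. The skew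
operators on `V_i` lift to derivations of the category of representations which kill `Z`, the other
`V_j` and the image of `H(W_i)` (the theorem on full Hodge groups of this library). By the first
fundamental theorem for the symplectic and the orthogonal group, the semi-invariant classes on
`X_i^m × Z` are sums of products of the `V_i`-components `δ_pq` of the diagonals and of classes in the
algebra generated by the classes from `W_i^m × Z` and by algebraic classes. By semisimplicity every
Hodge class is a sum of products `δ · a · π^*(b)` with algebraic `a` and *Hodge classes* `b`
(`tw_lift`). The absolutely Hodge classes contain the algebraic ones, they are compatible with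
products and pull-backs and form a rational subspace (`hcl_abs`). So the `R_i`-component of the
diagonal of `X_i`, where `R_i` is the algebra generated by the image of `H(W_i)` and by the algebraic
classes, is absolutely Hodge by the same argument, and so is `δ_pq` (`dl_alg`, for an arbitrary class
of Hodge classes with these properties). One replaces `W_i^m` by `X_i^m` for one index after the other
(`step`, `red`).
-/

universe u

namespace Pool.Agent.Results.MP_0da4e0_ag.SectionsTimesAbelian

open Pool.Agent.H914 Pool.Agent.U233.HG.St

/-- **Hodge classes on products of sections are absolutely Hodge.** -/
theorem result {k : Type u} [Field k] {𝒱 : VarClass k} {ops : CycleOps 𝒱} {J : Type}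
    {T : J → Theory ops} (κ : Comparison T) (σ : J)
    (hT : ∀ X : 𝒱.Obj, (cohF (T σ) X).str.Polarisable)
    (ι : Type) (V : ι → HS (T σ).F) (d : ι → ℕ) (hV : FullFam V d) :
    ∃ E : HS (T σ).F → Set ι, AbsExceptions V d E ∧
      ∀ S : Secs 𝒱 ι, Relative (T σ) V S → AbsDescent κ σ V E S :=
  abs_dec κ σ hV hT

end Pool.Agent.Results.MP_0da4e0_ag.SectionsTimesAbelian
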